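import Mathlib

set_option autoImplicit false

/-!
# Nonseparable Hilbert spaces: a Lipschitz homeomorphism with no point of Gateaux differentiability

Every nonseparable real Hilbert space `H` is `ℓ²(Γ)` with `Γ` uncountable. The coordinatewise map
`x ↦ (x_γ + max x_γ 0)_γ` is a bi-Lipschitz bijection. Every `x` has a vanishing coordinate `γ`,
and in the direction `e_γ` the one-sided derivatives at `x` are `2 e_γ` and `e_γ`.
-/

namespace Pool.Agent.Results.MP_714461_an.NowhereGateaux

open Filter Topology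

universe u

section Coord

variable {ι : Type u}

/-- coordinatewise positive part on `ℓ²(ι)` -/
noncomputable def pos (x : lp (fun _ : ι => ℝ) 2) : lp (fun _ : ι => ℝ) 2 :=
  ⟨fun i => max (x i) 0, Memℓp.mono' (lp.memℓp x) (fun i => by
    rw [Real.norm_eq_abs, Real.norm_eq_abs]
    rcases le_total (x i) 0 with h | h
    · rw [max_eq_right h, abs_zero]; exact abs_nonneg _
    · rw [max_eq_left h])⟩

theorem pos_apply (x : lp (fun _ : ι => ℝ) 2) (i : ι) : pos x i = max (x i) 0 := rfl

/-- the coordinatewise map with slopes `1` and `2`, a bijection of `ℓ²(ι)` -/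
noncomputable def psi : lp (fun _ : ι => ℝ) 2 ≃ lp (fun _ : ι => ℝ) 2 where
  toFun x := x + pos x
  invFun y := y - (2 : ℝ)⁻¹ • pos y
  left_inv x := by
    apply lp.ext
    funext i
    simp only [lp.coeFn_sub, lp.coeFn_smul, lp.coeFn_add, Pi.sub_apply, Pi.add_apply,
      Pi.smul_apply, pos_apply, smul_eq_mul]
    rcases le_total (x i) 0 with h | h
    · rw [max_eq_right h, add_zero, max_eq_right h]; ring
    · rw [max_eq_left h, max_eq_left (by linarith)]; ring
  right_inv y := by
    apply lp.ext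
    funext i
    simp only [lp.coeFn_sub, lp.coeFn_smul, lp.coeFn_add, Pi.sub_apply, Pi.add_apply,
      Pi.smul_apply, pos_apply, smul_eq_mul]
    rcases le_total (y i) 0 with h | h
    · rw [max_eq_right h, mul_zero, sub_zero, max_eq_right h, add_zero]
    · rw [max_eq_left h, max_eq_left (by linarith)]; ring

theorem psi_apply (x : lp (fun _ : ι => ℝ) 2) (i : ι) : psi x i = x i + max (x i) 0 := rfl

theorem real_bounds (a b : ℝ) :
    |a - b| ≤ |(a + max a 0) - (b + max b 0)| ∧
      |(a + max a 0) - (b + max b 0)| ≤ 2 * |a - b| := by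
  rcases le_total a 0 with ha | ha <;> rcases le_total b 0 with hb | hb <;>
    simp only [max_eq_right, max_eq_left, ha, hb] <;>
    constructor <;>
    rcases abs_cases (a - b) with ⟨h1, h2⟩ | ⟨h1, h2⟩ <;>
    first
    | (rw [h1]; refine abs_le.2 ⟨?_, ?_⟩ <;> linarith)
    | (rw [h1]; refine le_abs.2 ?_; first | (left; linarith) | (right; linarith))

theorem psi_bounds (x y : lp (fun _ : ι => ℝ) 2) :
    ‖x - y‖ ≤ ‖psi x - psi y‖ ∧ ‖psi x - psi y‖ ≤ 2 * ‖x - y‖ := by
  constructor
  · refine lp.norm_mono (by norm_num) (fun i => ?_)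
    simp only [lp.coeFn_sub, Pi.sub_apply, psi_apply, Real.norm_eq_abs]
    exact (real_bounds _ _).1
  · have h : ‖(2 : ℝ) • (x - y)‖ = 2 * ‖x - y‖ := by
      rw [norm_smul, Real.norm_eq_abs, abs_of_pos (by norm_num : (0:ℝ) < 2)]
    rw [← h]
    refine lp.norm_mono (by norm_num) (fun i => ?_)
    simp only [lp.coeFn_sub, lp.coeFn_smul, Pi.sub_apply, Pi.smul_apply, psi_apply,
      Real.norm_eq_abs, smul_eq_mul, abs_mul, abs_of_pos (by norm_num : (0:ℝ) < 2)]
    exact (real_bounds _ _).2

/-- Every element of `ℓ²(ι)` has a zero coordinate when `ι` is uncountable. -/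
theorem exists_zero [Uncountable ι] (x : lp (fun _ : ι => ℝ) 2) : ∃ i, x i = 0 := by
  by_contra hcon
  push Not at hcon
  have hs : Summable fun i => ‖x i‖ ^ (2 : ENNReal).toReal :=
    (lp.memℓp x).summable (by norm_num)
  have hc := hs.countable_support
  have hu : Function.support (fun i => ‖x i‖ ^ (2 : ENNReal).toReal) = Set.univ := by
    ext i
    simp only [Function.mem_support, Set.mem_univ, iff_true]
    have : 0 < ‖x i‖ := norm_pos_iff.2 (hcon i)
    positivity
  rw [hu] at hc
  exact Set.not_countable_univ hc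

end Coord

/-- Let `H` be a nonseparable real Hilbert space. There is a bijection `φ` of `H` onto itself with
`‖x - y‖ ≤ ‖φ x - φ y‖ ≤ 2 ‖x - y‖` for all `x, y`, such that for every point `x` there is a
direction `h` for which the difference quotients `(φ (x + t h) - φ x) / t` have no limit as
`t → 0`; in particular `φ` is Gateaux differentiable at no point of `H`. -/
theorem result (H : Type u) [NormedAddCommGroup H] [InnerProductSpace ℝ H] [CompleteSpace H]
    (hH : ¬ TopologicalSpace.SeparableSpace H) :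
    ∃ φ : H ≃ H,
      (∀ x y : H, ‖x - y‖ ≤ ‖φ x - φ y‖ ∧ ‖φ x - φ y‖ ≤ 2 * ‖x - y‖) ∧
      (∀ x : H, ∃ h : H, ¬ ∃ v : H,
        Tendsto (fun t : ℝ => t⁻¹ • (φ (x + t • h) - φ x)) (𝓝[≠] 0) (𝓝 v)) ∧
      ∀ x : H, ¬ ∃ T : H →L[ℝ] H, ∀ h : H,
        Tendsto (fun t : ℝ => t⁻¹ • (φ (x + t • h) - φ x)) (𝓝[≠] 0) (𝓝 (T h)) := by
  classical
  obtain ⟨w, b, hb⟩ := exists_hilbertBasis ℝ H
  have hw : Uncountable w := by
    rw [← not_countable_iff]
    intro hc
    apply hH
    have h1 : TopologicalSpace.IsSeparable (Set.range b) := (Set.countable_range b).isSeparable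
    have h2 := (h1.span (R := ℝ)).closure
    have h3 : closure ((Submodule.span ℝ (Set.range b) : Submodule ℝ H) : Set H) = Set.univ := by
      rw [← Submodule.topologicalClosure_coe, b.dense_span]; rfl
    rw [h3] at h2
    exact TopologicalSpace.isSeparable_univ_iff.1 h2
  set φ : H ≃ H := (b.repr.toEquiv.trans psi).trans b.repr.symm.toEquiv with hφ
  have hφa : ∀ x, φ x = b.repr.symm (psi (b.repr x)) := fun x => rfl
  have hno : ∀ x : H, ∃ h : H, ¬ ∃ v : H,
      Tendsto (fun t : ℝ => t⁻¹ • (φ (x + t • h) - φ x)) (𝓝[≠] 0) (𝓝 v) := by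
    intro x
    obtain ⟨i, hi⟩ := exists_zero (b.repr x)
    refine ⟨b i, ?_⟩
    rintro ⟨v, hv⟩
    have hcoord : ∀ t : ℝ, t ≠ 0 →
        b.repr (t⁻¹ • (φ (x + t • b i) - φ x)) i = t⁻¹ * (t + max t 0) := by
      intro t _
      rw [map_smul, map_sub, hφa, hφa, LinearIsometryEquiv.apply_symm_apply,
        LinearIsometryEquiv.apply_symm_apply, lp.coeFn_smul, Pi.smul_apply, lp.coeFn_sub,
        Pi.sub_apply, psi_apply, psi_apply, map_add, map_smul, b.repr_self, lp.coeFn_add,
        Pi.add_apply, lp.coeFn_smul, Pi.smul_apply, lp.single_apply_self, hi]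
      simp
    have hc : Continuous fun y : H => b.repr y i := by
      have h1 : Continuous fun y : lp (fun _ : w => ℝ) 2 => y i :=
        (lp.lipschitzWith_one_eval (E := fun _ : w => ℝ) 2 i).continuous
      exact h1.comp b.repr.continuous
    have hlim := (hc.tendsto v).comp hv
    have hR : Tendsto (fun t : ℝ => b.repr (t⁻¹ • (φ (x + t • b i) - φ x)) i) (𝓝[>] 0)
        (𝓝 (b.repr v i)) :=
      hlim.mono_left (nhdsWithin_mono _ (fun t ht => ne_of_gt ht))
    have hL : Tendsto (fun t : ℝ => b.repr (t⁻¹ • (φ (x + t • b i) - φ x)) i) (𝓝[<] 0)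
        (𝓝 (b.repr v i)) :=
      hlim.mono_left (nhdsWithin_mono _ (fun t ht => ne_of_lt ht))
    have hR2 : b.repr v i = 2 := by
      refine tendsto_nhds_unique hR (Tendsto.congr' ?_ tendsto_const_nhds)
      filter_upwards [self_mem_nhdsWithin] with t ht
      have ht' : (0 : ℝ) < t := ht
      rw [hcoord t ht'.ne', max_eq_left ht'.le]
      field_simp
      norm_num
    have hL1 : b.repr v i = 1 := by
      refine tendsto_nhds_unique hL (Tendsto.congr' ?_ tendsto_const_nhds)
      filter_upwards [self_mem_nhdsWithin] with t ht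
      have ht' : t < (0 : ℝ) := ht
      rw [hcoord t ht'.ne, max_eq_right ht'.le]
      field_simp [ht'.ne]
      simp
    linarith
  refine ⟨φ, fun x y => ?_, hno, fun x hx => ?_⟩
  · have h1 : ‖φ x - φ y‖ = ‖psi (b.repr x) - psi (b.repr y)‖ := by
      rw [hφa, hφa, ← map_sub, LinearIsometryEquiv.norm_map]
    have h2 : ‖x - y‖ = ‖b.repr x - b.repr y‖ := by
      rw [← map_sub, LinearIsometryEquiv.norm_map]
    rw [h1, h2]
    exact psi_bounds _ _
  · obtain ⟨T, hT⟩ := hx
    obtain ⟨h, hh⟩ := hno x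
    exact hh ⟨T h, hT h⟩

end Pool.Agent.Results.MP_714461_an.NowhereGateaux
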